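import Mathlib

namespace Pool.Agent.Results.MP_c12a31_an.Approx

open Filter Topology Matrix Finset Real

/-- The determinant of the matrix `(K(x_i, y_j))`. -/
noncomputable def minor {α β : Type} (K : α × β → ℝ) {n : ℕ} (x : Fin n → α) (y : Fin n → β) : ℝ :=
  (Matrix.of fun i j => K (x i, y j)).det

/-- Totally nonnegative kernels. -/
def TN {X Y : Set ℝ} (K : X × Y → ℝ) : Prop :=
  ∀ n ≥ 1, ∀ (x : Fin n → X) (y : Fin n → Y), StrictMono x → StrictMono y → 0 ≤ minor K x y

/-- Totally positive kernels. -/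
def TP {X Y : Set ℝ} (K : X × Y → ℝ) : Prop :=
  ∀ n ≥ 1, ∀ (x : Fin n → X) (y : Fin n → Y), StrictMono x → StrictMono y → 0 < minor K x y

section General

variable {α β ι : Type}

lemma minor_congr {α' β' : Type} {K : α × β → ℝ} {K' : α' × β' → ℝ} {n : ℕ} {x : Fin n → α}
    {y : Fin n → β} {x' : Fin n → α'} {y' : Fin n → β'}
    (h : ∀ i j, K (x i, y j) = K' (x' i, y' j)) : minor K x y = minor K' x' y' :=
  congrArg det (Matrix.ext h)

lemma minor_tr {α' β' : Type} {K : α × β → ℝ} {K' : α' × β' → ℝ} {n : ℕ} {x : Fin n → α}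
    {y : Fin n → β} {x' : Fin n → α'} {y' : Fin n → β'}
    (h : ∀ i j, K (x i, y j) = K' (x' j, y' i)) : minor K x y = minor K' x' y' :=
  (congrArg det (Matrix.ext h)).trans (det_transpose (Matrix.of fun i j => K' (x' i, y' j)))

/-- Nonnegativity on weakly increasing tuples. -/
def TNw [Preorder α] [Preorder β] (K : α × β → ℝ) : Prop :=
  ∀ n (x : Fin n → α) (y : Fin n → β), Monotone x → Monotone y → 0 ≤ minor K x y

lemma tnw_of [LinearOrder α] [LinearOrder β] {K : α × β → ℝ}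
    (h : ∀ n (x : Fin n → α) (y : Fin n → β), StrictMono x → StrictMono y → 0 ≤ minor K x y) :
    TNw K := by
  intro n x y hx hy
  by_cases h1 : Function.Injective x
  · by_cases h2 : Function.Injective y
    · exact h n x y (hx.strictMono_of_injective h1) (hy.strictMono_of_injective h2)
    · obtain ⟨i, j, e, ne⟩ := Function.not_injective_iff.1 h2
      exact (det_zero_of_column_eq ne fun k => by simp [e]).ge
  · obtain ⟨i, j, e, ne⟩ := Function.not_injective_iff.1 h1
    exact (det_zero_of_row_eq ne (funext fun k => by simp [e])).ge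

lemma andreief [Fintype ι] (A : α × ι → ℝ) (B : ι × β → ℝ) {n : ℕ} (x : Fin n → α)
    (y : Fin n → β) : n.factorial * minor (fun p => ∑ k, A (p.1, k) * B (k, p.2)) x y =
      ∑ f : Fin n → ι, minor A x f * minor B f y := by
  classical
  have h1 : minor (fun p => ∑ k, A (p.1, k) * B (k, p.2)) x y =
      ∑ f : Fin n → ι, minor A x f * ∏ j, B (f j, y j) := by
    simp only [minor, det_apply', of_apply, prod_univ_sum, Fintype.piFinset_univ, mul_sum,
      sum_mul, prod_mul_distrib, mul_assoc]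
    exact sum_comm
  have h2 : ∀ τ : Equiv.Perm (Fin n), minor (fun p => ∑ k, A (p.1, k) * B (k, p.2)) x y =
      ∑ f : Fin n → ι, minor A x f * ((Equiv.Perm.sign τ : ℤ) * ∏ j, B (f (τ j), y j)) := by
    intro τ
    rw [h1]
    refine (Fintype.sum_equiv (Equiv.arrowCongr τ.symm (Equiv.refl ι)) _ _ fun f => ?_).symm
    have := det_permute' τ (Matrix.of fun i j => A (x i, f j))
    simp only [minor, Equiv.arrowCongr_apply, Equiv.symm_symm, Equiv.coe_refl, Function.comp,
      id]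
    rw [← mul_assoc, mul_comm (det _), ← this]
    rfl
  have h3 := sum_congr rfl fun τ (_ : τ ∈ univ) => h2 τ
  rw [sum_const, card_univ, Fintype.card_perm, Fintype.card_fin, nsmul_eq_mul, sum_comm] at h3
  rw [h3]
  refine sum_congr rfl fun f _ => ?_
  rw [← mul_sum]
  simp only [minor, det_apply', of_apply]

lemma comp_ge [Preorder α] [Preorder β] [Fintype ι] [LinearOrder ι] {A : α × ι → ℝ}
    {B : ι × β → ℝ} (hA : TNw A) (hB : TNw B) {n : ℕ} {x : Fin n → α} {y : Fin n → β}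
    (hx : Monotone x) (hy : Monotone y) :
    0 ≤ minor (fun p => ∑ k, A (p.1, k) * B (k, p.2)) x y ∧ ∀ g, minor A x g * minor B g y ≤
      n.factorial * minor (fun p => ∑ k, A (p.1, k) * B (k, p.2)) x y := by
  have h : ∀ f : Fin n → ι, 0 ≤ minor A x f * minor B f y := fun f => by
    have a := hA n x _ hx (Tuple.monotone_sort f)
    have b := hB n _ y (Tuple.monotone_sort f) hy
    have a' := det_permute' (Tuple.sort f) (Matrix.of fun i j => A (x i, f j))
    have b' := det_permute (Tuple.sort f) (Matrix.of fun i j => B (f i, y j))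
    have c := mul_nonneg (a.trans_eq a') (b.trans_eq b')
    rcases Int.units_eq_one_or (Equiv.Perm.sign (Tuple.sort f)) with e | e <;>
      simpa [e, minor] using c
  refine ⟨?_, fun g => ?_⟩
  · have := (sum_nonneg fun f _ => h f).trans_eq (andreief A B x y).symm
    exact nonneg_of_mul_nonneg_right this (by exact_mod_cast n.factorial_pos)
  · rw [andreief]
    exact single_le_sum (fun f _ => h f) (mem_univ g)

lemma exp_indep (n : ℕ) (x y c : Fin n → ℝ) (hx : StrictMono x) (hy : StrictMono y)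
    (h : ∀ i, ∑ j, c j * exp (x i * y j) = 0) : c = 0 := by
  induction n with
  | zero => exact Subsingleton.elim _ _
  | succ n ih =>
    let g : ℝ → ℝ := fun t => c 0 + ∑ j : Fin n, c j.succ * exp (t * (y j.succ - y 0))
    have g0 : ∀ i, g (x i) = 0 := fun i => by
      have := h i
      rw [Fin.sum_univ_succ] at this
      have e : g (x i) * exp (x i * y 0) = 0 := by
        rw [← this]
        simp only [g, add_mul, sum_mul, mul_assoc, ← exp_add]
        congr 1
        exact sum_congr rfl fun j _ => by congr 2; ring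
      exact (mul_eq_zero.1 e).resolve_right (exp_pos _).ne'
    have gd : ∀ t, HasDerivAt g (∑ j : Fin n, c j.succ * (y j.succ - y 0) *
        exp (t * (y j.succ - y 0))) t := fun t => by
      refine (HasDerivAt.fun_sum fun j _ => ?_).const_add _
      exact (((hasDerivAt_mul_const (y j.succ - y 0)).exp).const_mul (c j.succ)).congr_deriv
        (by ring)
    choose z hz hz' using fun i : Fin n => exists_hasDerivAt_eq_zero (hx (Fin.castSucc_lt_succ
      (i := i))) (fun t _ => (gd t).continuousAt.continuousWithinAt) ((g0 _).trans (g0 _).symm)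
      fun t _ => gd t
    have h1 := ih z (fun j => y j.succ - y 0) (fun j => c j.succ * (y j.succ - y 0))
      (fun i j hij => (hz i).2.trans_le ((hx.monotone (by
        rw [Fin.le_def]; exact hij)).trans (hz j).1.le))
      (fun i j hij => sub_lt_sub_right (hy (Fin.succ_lt_succ_iff.2 hij)) _) hz'
    have h2 : ∀ j : Fin n, c j.succ = 0 := fun j =>
      (mul_eq_zero.1 (congrFun h1 j)).resolve_right (sub_pos.2 (hy (Fin.succ_pos j))).ne'
    have h3 := g0 0
    simp only [g, h2, zero_mul, sum_const_zero, add_zero] at h3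
    funext j
    exact Fin.cases h3 h2 j

lemma exp_tp {n : ℕ} {x y : Fin n → ℝ} (hx : StrictMono x) (hy : StrictMono y) :
    0 < minor (fun p : ℝ × ℝ => exp (p.1 * p.2)) x y := by
  let F : ℝ → ℝ := fun s => minor (fun p : ℝ × ℝ => exp (p.1 * p.2)) x
    fun j => (1 - s) * y j + s * (j : ℕ)
  have hc : Continuous F := Continuous.matrix_det (continuous_matrix fun i j => by
    simp only [of_apply]; fun_prop)
  have h1 : 0 < F 1 := by
    have : F 1 = (vandermonde fun i => exp (x i)).det := by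
      simp only [F, minor]
      congr 1
      ext i j
      simp [vandermonde, ← exp_nat_mul, mul_comm]
    rw [this, det_vandermonde]
    exact prod_pos fun i _ => prod_pos fun j hj => sub_pos.2 (exp_lt_exp.2 (hx (mem_Ioi.1 hj)))
  by_contra h0
  have h2 : F 0 ≤ 0 := by simpa [F] using h0
  obtain ⟨s, hs, h⟩ := intermediate_value_Icc zero_le_one hc.continuousOn ⟨h2, h1.le⟩
  obtain ⟨c, c0, hc⟩ := exists_mulVec_eq_zero_iff.2 h
  refine c0 (exp_indep n x (fun j => (1 - s) * y j + s * (j : ℕ)) c hx (fun i j hij => ?_)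
    fun i => ?_)
  · have a := hy hij
    have b : ((i : ℕ) : ℝ) < (j : ℕ) := by exact_mod_cast hij
    rcases hs.1.eq_or_lt with e | e
    · simp [← e, a]
    · nlinarith [hs.2]
  · simpa [mulVec, dotProduct, mul_comm] using congrFun hc i

/-- Normalised Gaussian weights. -/
noncomputable def W (κ : ℝ) (M : ℕ) (t : ℕ → ℝ) (x : ℝ) (i : ℕ) : ℝ :=
  exp (-κ * (t i - x) ^ 2) / ∑ k ∈ range (M + 1), exp (-κ * (t k - x) ^ 2)

lemma Z_pos (κ : ℝ) (M : ℕ) (t : ℕ → ℝ) (x : ℝ) :
    0 < ∑ k ∈ range (M + 1), exp (-κ * (t k - x) ^ 2) :=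
  sum_pos (fun _ _ => exp_pos _) nonempty_range_add_one

lemma W_pos (κ : ℝ) (M : ℕ) (t : ℕ → ℝ) (x : ℝ) (i : ℕ) : 0 < W κ M t x i :=
  div_pos (exp_pos _) (Z_pos κ M t x)

lemma W_sum (κ : ℝ) (M : ℕ) (t : ℕ → ℝ) (x : ℝ) : ∑ i ∈ range (M + 1), W κ M t x i = 1 := by
  unfold W
  rw [← sum_div, div_self (Z_pos κ M t x).ne']

lemma W_minor (κ : ℝ) (M : ℕ) (t : ℕ → ℝ) {n : ℕ} (x : Fin n → ℝ) (g : Fin n → ℕ) :
    ∃ c > 0, minor (fun p : ℝ × ℕ => W κ M t p.1 p.2) x g =
      c * minor (fun p : ℝ × ℝ => exp (p.1 * p.2)) x fun j => 2 * κ * t (g j) := by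
  refine ⟨(∏ i, exp (-κ * x i ^ 2) / ∑ k ∈ range (M + 1), exp (-κ * (t k - x i) ^ 2)) *
    ∏ j, exp (-κ * t (g j) ^ 2), mul_pos (prod_pos fun i _ => div_pos (exp_pos _) (Z_pos ..))
    (prod_pos fun j _ => exp_pos _), ?_⟩
  unfold minor
  rw [mul_assoc, ← det_mul_row, ← det_mul_column]
  congr 1
  ext i j
  simp only [W, of_apply]
  rw [div_mul_eq_mul_div, ← exp_add, ← exp_add]
  congr 2
  ring

lemma W_tn {κ : ℝ} (hκ : 0 < κ) (M : ℕ) {t : ℕ → ℝ} (ht : Monotone t) :
    TNw fun p : ℝ × ℕ => W κ M t p.1 p.2 := fun n x g hx hg => by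
  obtain ⟨c, c0, h⟩ := W_minor κ M t x g
  rw [h]
  exact mul_nonneg c0.le (tnw_of (fun _ _ _ a b => (exp_tp a b).le) n _ _ hx fun i j hij =>
    mul_le_mul_of_nonneg_left (ht (hg hij)) (by positivity))

lemma W_le {κ : ℝ} (hκ : 0 ≤ κ) {M : ℕ} {t : ℕ → ℝ} {x δ : ℝ} {k : ℕ} (hk : k ≤ M)
    (h : |t k - x| ≤ δ / 2) (i : ℕ) : W κ M t x i ≤ exp (κ * (δ ^ 2 / 4 - (t i - x) ^ 2)) := by
  unfold W
  rw [div_le_iff₀ (Z_pos ..)]
  refine le_trans ?_ (mul_le_mul_of_nonneg_left (single_le_sum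
    (f := fun k => exp (-κ * (t k - x) ^ 2)) (fun _ _ => (exp_pos _).le)
    (mem_range.2 (Nat.lt_succ_of_le hk))) (exp_pos _).le)
  rw [← exp_add, exp_le_exp]
  have := pow_le_pow_left₀ (abs_nonneg _) h 2
  rw [sq_abs] at this
  nlinarith

/-- The block diagonal extension. -/
def blk (A : ℕ × ℕ → ℝ) (M : ℕ) (ε : ℕ → ℝ) (p : ℕ × ℕ) : ℝ :=
  if p.1 < M ∧ p.2 < M then A p else if p.1 = p.2 then ε p.1 else 0

lemma blk_tn {A : ℕ × ℕ → ℝ} (hA : TNw A) (M : ℕ) {ε : ℕ → ℝ} (hε : ∀ i, 0 ≤ ε i) :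
    TNw (blk A M ε) := by
  refine tnw_of fun n => ?_
  induction n with
  | zero => intro x y _ _; simp [minor]
  | succ n ih =>
    intro x y hx hy
    have lx := fun i => hx.monotone (Fin.le_last i)
    have ly := fun i => hy.monotone (Fin.le_last i)
    by_cases h : x (Fin.last n) < M ∧ y (Fin.last n) < M
    · refine (hA _ x y hx.monotone hy.monotone).trans_eq ?_
      unfold minor
      congr 1
      ext i j
      exact (if_pos ⟨(lx i).trans_lt h.1, (ly j).trans_lt h.2⟩).symm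
    rcases lt_trichotomy (x (Fin.last n)) (y (Fin.last n)) with e | e | e
    · refine (det_eq_zero_of_column_eq_zero (Fin.last n) fun i => ?_).ge
      have := lx i
      simp only [of_apply, blk]
      rw [if_neg (by omega), if_neg (by omega)]
    · unfold minor
      rw [det_succ_row _ (Fin.last n), sum_eq_single (Fin.last n) (fun j _ hj => ?_) (by simp)]
      · refine mul_nonneg (mul_nonneg (Even.pow_nonneg ⟨_, rfl⟩ _) ?_)
          (ih (x ∘ (Fin.last n).succAbove) (y ∘ (Fin.last n).succAbove)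
            (hx.comp (Fin.strictMono_succAbove _)) (hy.comp (Fin.strictMono_succAbove _)))
        simp only [of_apply, blk]
        rw [if_neg h, if_pos e]
        exact hε _
      · have := hy (Fin.lt_last_iff_ne_last.2 hj)
        simp only [of_apply, blk]
        rw [if_neg (by omega), if_neg (by omega), mul_zero, zero_mul]
    · refine (det_eq_zero_of_row_eq_zero (Fin.last n) fun j => ?_).ge
      have := ly j
      simp only [of_apply, blk]
      rw [if_neg (by omega), if_neg (by omega)]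

/-- The approximating kernel. -/
noncomputable def ker (κ : ℝ) (M : ℕ) (s t : ℕ → ℝ) (A : ℕ × ℕ → ℝ) (c : ℝ) (p : ℝ × ℝ) : ℝ :=
  ∑ i ∈ range (M + 1), ∑ j ∈ range (M + 1), W κ M s p.1 i * (A (i, j) * W κ M t p.2 j) +
    ∑' k, W κ M s p.1 (M + 1 + k) * (c * (1 / 2) ^ (M + 1 + k) * W κ M t p.2 (M + 1 + k))

lemma W_bdd {κ : ℝ} (hκ : 0 ≤ κ) (M : ℕ) (t : ℕ → ℝ) (x : ℝ) : ∃ C, ∀ i, W κ M t x i ≤ C :=
  ⟨_, fun i => (W_le hκ (Nat.zero_le M) (δ := 2 * |t 0 - x|) (by linarith) i).trans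
    (exp_le_exp.2 (mul_le_mul_of_nonneg_left (sub_le_self _ (sq_nonneg _)) hκ))⟩

lemma tail_le {κ : ℝ} {M : ℕ} {s t : ℕ → ℝ} {c x y C D : ℝ} (hc : 0 ≤ c)
    (h1 : ∀ i, W κ M s x i ≤ C) (h2 : ∀ i, W κ M t y i ≤ D) (k : ℕ) :
    W κ M s x (M + 1 + k) * (c * (1 / 2) ^ (M + 1 + k) * W κ M t y (M + 1 + k)) ≤
      C * c * D * (1 / 2) ^ k := by
  have a := W_pos κ M s x (M + 1 + k)
  have b := W_pos κ M t y (M + 1 + k)
  have : (1 / 2 : ℝ) ^ (M + 1 + k) ≤ (1 / 2) ^ k :=
    pow_le_pow_of_le_one (by norm_num) (by norm_num) (by omega)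
  have := a.le.trans (h1 _)
  calc _ ≤ C * (c * (1 / 2) ^ k * D) := by gcongr; exacts [h1 _, h2 _]
    _ = _ := by ring

lemma ker_tp {κ : ℝ} (hκ : 0 < κ) (M : ℕ) {s t : ℕ → ℝ} (hs : Monotone s) (ht : Monotone t)
    (hs' : StrictMono fun k => s (M + 1 + k)) (ht' : StrictMono fun k => t (M + 1 + k))
    {A : ℕ × ℕ → ℝ} (hA : TNw A) {c : ℝ} (hc : 0 < c) {n : ℕ} {x y : Fin n → ℝ}
    (hx : StrictMono x) (hy : StrictMono y) : 0 < minor (ker κ M s t A c) x y := by
  let ε : ℕ → ℝ := fun i => c * (1 / 2) ^ i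
  let C : ℕ → ℝ × ℝ → ℝ := fun r p => ∑ i : Fin (M + 1 + r), W κ M s p.1 i *
    ∑ j : Fin (M + 1 + r), blk A (M + 1) ε (i, j) * W κ M t p.2 j
  have lim : ∀ p, Tendsto (fun r => C r p) atTop (𝓝 (ker κ M s t A c p)) := fun p => by
    obtain ⟨C1, h1⟩ := W_bdd hκ.le M s p.1
    obtain ⟨C2, h2⟩ := W_bdd hκ.le M t p.2
    have sm := Summable.of_nonneg_of_le (fun k => by
      have a := W_pos κ M s p.1 (M + 1 + k)
      have b := W_pos κ M t p.2 (M + 1 + k)
      positivity) (tail_le hc.le h1 h2) (summable_geometric_two.mul_left _)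
    refine (sm.tendsto_sum_tsum_nat.const_add _).congr fun r => ?_
    simp only [C]
    rw [Fin.sum_univ_eq_sum_range (fun i => W κ M s p.1 i *
      ∑ j : Fin (M + 1 + r), blk A (M + 1) ε (i, j) * W κ M t p.2 j), sum_range_add _ (M + 1) r]
    congr 1
    · refine sum_congr rfl fun i hi => ?_
      have z : ∑ j ∈ range r, blk A (M + 1) ε (i, M + 1 + j) * W κ M t p.2 (M + 1 + j) = 0 :=
        sum_eq_zero fun j _ => by
          have := mem_range.1 hi
          rw [blk, if_neg (by simp only; omega), if_neg (by simp only; omega), zero_mul]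
      rw [Fin.sum_univ_eq_sum_range (fun j => blk A (M + 1) ε (i, j) * W κ M t p.2 j),
        sum_range_add _ (M + 1) r, ← mul_sum, z, add_zero]
      congr 1
      exact sum_congr rfl fun j hj => by rw [blk, if_pos ⟨mem_range.1 hi, mem_range.1 hj⟩]
    · refine sum_congr rfl fun i hi => ?_
      rw [Fin.sum_univ_eq_sum_range (fun j => blk A (M + 1) ε (M + 1 + i, j) * W κ M t p.2 j),
        sum_eq_single (M + 1 + i) (fun j _ hj => by
          rw [blk, if_neg (by simp only; omega), if_neg hj.symm, zero_mul]) (fun h => absurd (mem_range.2 (by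
            have := mem_range.1 hi; omega)) h), blk, if_neg (by simp only; omega), if_pos rfl]
  let g : Fin n → ℕ := fun i => M + 1 + i
  obtain ⟨c1, c10, e1⟩ := W_minor κ M s x g
  obtain ⟨c2, c20, e2⟩ := W_minor κ M t y g
  have p1 : 0 < minor (fun p : ℝ × ℕ => W κ M s p.1 p.2) x g := e1 ▸ mul_pos c10
    (exp_tp hx fun i j hij => mul_lt_mul_of_pos_left (hs' hij) (by positivity))
  have p2 : 0 < minor (fun p : ℝ × ℕ => W κ M t p.1 p.2) y g := e2 ▸ mul_pos c20
    (exp_tp hy fun i j hij => mul_lt_mul_of_pos_left (ht' hij) (by positivity))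
  have p3 : 0 < minor (blk A (M + 1) ε) g g := by
    have : minor (blk A (M + 1) ε) g g = (diagonal fun i => ε (g i)).det := by
      unfold minor
      congr 1
      ext i j
      simp [blk, g, diagonal_apply, Fin.ext_iff]
      omega
    rw [this, det_diagonal]
    exact prod_pos fun i _ => by positivity
  have low : ∀ r ≥ n, minor (fun p : ℝ × ℕ => W κ M s p.1 p.2) x g *
      (minor (blk A (M + 1) ε) g g * minor (fun p : ℝ × ℕ => W κ M t p.1 p.2) y g) ≤
      n.factorial * (n.factorial * minor (C r) x y) := fun r hr => by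
    have vm : Monotone (Fin.val : Fin (M + 1 + r) → ℕ) := Fin.val_strictMono.monotone
    let g' : Fin n → Fin (M + 1 + r) := fun i => ⟨g i, by simp only [g]; omega⟩
    have gm : Monotone g' := fun i j hij => by
      simp only [g', g, Fin.mk_le_mk]; exact Nat.add_le_add_left hij _
    have t1 : TNw fun p : ℝ × Fin (M + 1 + r) => W κ M s p.1 p.2 := fun n x y a b =>
      (W_tn hκ M hs n x _ a (vm.comp b)).trans_eq (minor_congr fun _ _ => rfl)
    have t2 : TNw fun p : Fin (M + 1 + r) × Fin (M + 1 + r) => blk A (M + 1) ε (p.1, p.2) :=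
      fun n x y a b => (blk_tn hA (M + 1) (ε := ε) (fun i => by positivity) n _ _ (vm.comp a)
        (vm.comp b)).trans_eq (minor_congr fun _ _ => rfl)
    have t3 : TNw fun p : Fin (M + 1 + r) × ℝ => W κ M t p.2 p.1 := fun n x y a b =>
      (W_tn hκ M ht n y _ b (vm.comp a)).trans_eq (minor_tr fun _ _ => rfl)
    have a := (comp_ge t2 t3 gm hy.monotone).2 g'
    have b := (comp_ge t1 (fun n x y a b => (comp_ge t2 t3 a b).1) hx.monotone hy.monotone).2 g'
    rw [minor_tr (K' := fun p : ℝ × ℕ => W κ M t p.1 p.2) (x := g') (y := y) (x' := y) (y' := g)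
      fun _ _ => rfl, minor_congr (K' := blk A (M + 1) ε) (x := g') (y := g') (x' := g) (y' := g)
      fun _ _ => rfl] at a
    rw [minor_congr (K' := fun p : ℝ × ℕ => W κ M s p.1 p.2) (x := x) (y := g') (x' := x) (y' := g)
      fun _ _ => rfl, minor_congr (K' := C r) (x := x) (y := y) (x' := x) (y' := y)
      fun _ _ => rfl] at b
    refine (mul_le_mul_of_nonneg_left a p1.le).trans ?_
    rw [mul_left_comm]
    exact mul_le_mul_of_nonneg_left b (by positivity)
  have l2 : Tendsto (fun r => minor (C r) x y) atTop (𝓝 (minor (ker κ M s t A c) x y)) :=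
    ((continuous_id.matrix_det).tendsto _).comp
      (tendsto_pi_nhds.2 fun i => tendsto_pi_nhds.2 fun j => lim (x i, y j))
  have := (mul_pos p1 (mul_pos p3 p2)).trans_le (ge_of_tendsto ((l2.const_mul _).const_mul _)
    (eventually_atTop.2 ⟨n, low⟩))
  have f0 : (0 : ℝ) < n.factorial := by exact_mod_cast n.factorial_pos
  exact (mul_pos_iff_of_pos_left f0).1 ((mul_pos_iff_of_pos_left f0).1 this)

lemma ker_near {κ : ℝ} (hκ : 0 < κ) {M : ℕ} {s t : ℕ → ℝ} {A : ℕ × ℕ → ℝ} {x y δ η B a : ℝ}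
    (d0 : 0 < δ) (d1 : δ ≤ 1) {k l : ℕ} (hk : k ≤ M) (hl : l ≤ M) (h1 : |s k - x| ≤ δ / 2)
    (h2 : |t l - y| ≤ δ / 2) (hη : 0 ≤ η) (hB : ∀ i ≤ M, ∀ j ≤ M, |A (i, j) - a| ≤ B)
    (hA : ∀ i ≤ M, ∀ j ≤ M, |s i - x| < δ → |t j - y| < δ → |A (i, j) - a| ≤ η) :
    |ker κ M s t A (exp (-κ) ^ 2 / (M + 1)) (x, y) - a| ≤
      η + 2 * B * ((M + 1) * (2 / (κ * δ ^ 2))) + 2 / (M + 1) := by
  have B0 : 0 ≤ B := (abs_nonneg _).trans (hB 0 (Nat.zero_le _) 0 (Nat.zero_le _))
  have all : ∀ {t : ℕ → ℝ} {x : ℝ} {k : ℕ}, k ≤ M → |t k - x| ≤ δ / 2 → ∀ i,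
      W κ M t x i ≤ exp κ := fun {t x k} hk h i => (W_le hκ.le hk h i).trans
    (exp_le_exp.2 (mul_le_of_le_one_right hκ.le (by
      linarith [sq_nonneg (t i - x), pow_le_one₀ (n := 2) d0.le d1])))
  have far : ∀ {t : ℕ → ℝ} {x : ℝ} {k : ℕ}, k ≤ M → |t k - x| ≤ δ / 2 →
      ∑ i ∈ range (M + 1), W κ M t x i * (if |t i - x| < δ then 0 else 1) ≤
        (M + 1) * (2 / (κ * δ ^ 2)) := fun {t x k} hk h => by
    refine (sum_le_card_nsmul _ _ (2 / (κ * δ ^ 2)) fun i _ => ?_).trans (by simp)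
    split_ifs with hi
    · rw [mul_zero]; positivity
    · have a1 := pow_le_pow_left₀ d0.le (not_lt.1 hi) 2
      rw [sq_abs] at a1
      rw [mul_one]
      refine (W_le hκ.le hk h i).trans ((exp_le_exp.2 (show _ ≤ -(κ * δ ^ 2 / 2) by
        nlinarith [sq_nonneg δ])).trans ?_)
      have p : 0 < κ * δ ^ 2 / 2 := by positivity
      have q : κ * δ ^ 2 / 2 ≤ exp (κ * δ ^ 2 / 2) := by linarith [add_one_le_exp (κ * δ ^ 2 / 2)]
      rw [Real.exp_neg, ← inv_div (κ * δ ^ 2)]
      exact inv_anti₀ p q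
  have tail := tail_le (c := exp (-κ) ^ 2 / (M + 1)) (by positivity) (all hk h1) (all hl h2)
  have nn : ∀ k, 0 ≤ W κ M s x (M + 1 + k) * (exp (-κ) ^ 2 / (M + 1) * (1 / 2) ^ (M + 1 + k) *
      W κ M t y (M + 1 + k)) := fun k => by
    have a := W_pos κ M s x (M + 1 + k)
    have b := W_pos κ M t y (M + 1 + k)
    positivity
  have sg := summable_geometric_two.mul_left (exp κ * (exp (-κ) ^ 2 / (M + 1)) * exp κ)
  have t1 := (Summable.of_nonneg_of_le nn tail sg).tsum_le_tsum tail sg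
  rw [tsum_mul_left, tsum_geometric_two, show exp κ * (exp (-κ) ^ 2 / (M + 1)) * exp κ * 2 =
    2 / (M + 1) by rw [Real.exp_neg]; field_simp] at t1
  have e : ∑ i ∈ range (M + 1), ∑ j ∈ range (M + 1), W κ M s x i * (A (i, j) * W κ M t y j) - a =
      ∑ i ∈ range (M + 1), ∑ j ∈ range (M + 1), W κ M s x i * W κ M t y j * (A (i, j) - a) := by
    have : a = ∑ i ∈ range (M + 1), ∑ j ∈ range (M + 1), W κ M s x i * W κ M t y j * a := by
      simp only [← sum_mul, ← mul_sum, W_sum, one_mul]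
    nth_rewrite 1 [this]
    simp only [← sum_sub_distrib]
    exact sum_congr rfl fun i _ => sum_congr rfl fun j _ => by ring
  have m : |∑ i ∈ range (M + 1), ∑ j ∈ range (M + 1), W κ M s x i * W κ M t y j * (A (i, j) - a)| ≤
      ∑ i ∈ range (M + 1), ∑ j ∈ range (M + 1), (η * (W κ M s x i * W κ M t y j) +
        B * (W κ M s x i * (if |s i - x| < δ then 0 else 1) * W κ M t y j) +
        B * (W κ M s x i * (W κ M t y j * if |t j - y| < δ then 0 else 1))) := by
    refine (abs_sum_le_sum_abs _ _).trans (sum_le_sum fun i hi =>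
      (abs_sum_le_sum_abs _ _).trans (sum_le_sum fun j hj => ?_))
    have w := mul_pos (W_pos κ M s x i) (W_pos κ M t y j)
    have b1 := hB i (Nat.lt_succ_iff.1 (mem_range.1 hi)) j (Nat.lt_succ_iff.1 (mem_range.1 hj))
    have b2 := hA i (Nat.lt_succ_iff.1 (mem_range.1 hi)) j (Nat.lt_succ_iff.1 (mem_range.1 hj))
    rw [abs_mul, abs_of_pos w]
    have := mul_nonneg hη w.le
    have := mul_nonneg B0 w.le
    split_ifs with c1 c2 c2
    · nlinarith [b2 c1 c2]
    all_goals nlinarith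
  simp only [sum_add_distrib, ← mul_sum, ← sum_mul, W_sum, mul_one, one_mul] at m
  have f1 := mul_le_mul_of_nonneg_left (far hk h1) B0
  have f2 := mul_le_mul_of_nonneg_left (far hl h2) B0
  unfold ker
  rw [add_sub_right_comm, e]
  refine (abs_add_le _ _).trans ?_
  rw [abs_of_nonneg (tsum_nonneg nn)]
  simp only [mul_assoc, ← mul_sum] at m t1 ⊢
  linarith

lemma nodes {X : Set ℝ} (a : ℕ → X) (M : ℕ) :
    ∃ u : ℕ → X, Monotone u ∧ ∀ k ≤ M, ∃ i ≤ M, u i = a k := by
  let f : Fin (M + 1) → X := fun i => a i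
  refine ⟨fun i => f (Tuple.sort f ⟨min i M, by omega⟩), fun i j hij => Tuple.monotone_sort f
    (by simp only [Fin.mk_le_mk]; omega), fun k hk => ?_⟩
  obtain ⟨i, hi⟩ := (Tuple.sort f).surjective ⟨k, by omega⟩
  refine ⟨i, by omega, ?_⟩
  have : (⟨min i M, by omega⟩ : Fin (M + 1)) = i := Fin.ext (by simp only; omega)
  simp only [this, hi, f]

lemma ext_mono {X : Set ℝ} {u : ℕ → X} (hu : Monotone u) (M : ℕ) :
    (Monotone fun i => (u i : ℝ) + (i - M : ℕ)) ∧
      StrictMono fun k => (u (M + 1 + k) : ℝ) + (M + 1 + k - M : ℕ) :=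
  ⟨fun i j h => add_le_add (hu h) (Nat.cast_le.2 (by omega)),
    fun i j h => add_lt_add_of_le_of_lt (hu (by omega)) (Nat.cast_lt.2 (by omega))⟩

end General

theorem result (X Y : Set ℝ) (hX : X.Infinite) (hY : Y.Infinite) (K : X × Y → ℝ) (hK : TN K) :
    ∃ Km : ℕ → X × Y → ℝ, (∀ m, TP (Km m)) ∧
      ∀ p, ContinuousAt K p → Tendsto (fun m => Km m p) atTop (𝓝 (K p)) := by
  have := hX.nonempty.to_subtype
  have := hY.nonempty.to_subtype
  obtain ⟨a, ha⟩ := TopologicalSpace.exists_dense_seq X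
  obtain ⟨b, hb⟩ := TopologicalSpace.exists_dense_seq Y
  choose u hu hu' using nodes a
  choose v hv hv' using nodes b
  have hK' : TNw K := tnw_of fun n x y hx hy => by
    rcases Nat.eq_zero_or_pos n with rfl | h
    · simp [minor]
    · exact hK n h x y hx hy
  let B : ℕ → ℝ := fun M => ∑ i ∈ range (M + 1), ∑ j ∈ range (M + 1), |K (u M i, v M j)|
  have B0 : ∀ M, 0 ≤ B M := fun M => by positivity
  let κ : ℕ → ℝ := fun M => (M + 1) ^ 2 * (B M + 1)
  have κ0 : ∀ M, 0 < κ M := fun M => by have := B0 M; positivity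
  refine ⟨fun M p => ker (κ M) M (fun i => u M i + (i - M : ℕ)) (fun i => v M i + (i - M : ℕ))
    (fun q => K (u M q.1, v M q.2)) (exp (-κ M) ^ 2 / (M + 1)) (p.1, p.2),
    fun M n _ x y hx hy => (ker_tp (κ0 M) M (ext_mono (hu M) M).1 (ext_mono (hv M) M).1
      (ext_mono (hu M) M).2 (ext_mono (hv M) M).2
      (A := fun q => K (u M q.1, v M q.2)) (fun n x y a b => (hK' n _ _ ((hu M).comp a)
        ((hv M).comp b)).trans_eq (minor_congr fun _ _ => rfl))
      (c := exp (-κ M) ^ 2 / (M + 1)) (by positivity) ((Subtype.strictMono_coe _).comp hx)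
      ((Subtype.strictMono_coe _).comp hy)).trans_eq (minor_congr fun _ _ => rfl),
    fun p hp => ?_⟩
  rw [Metric.tendsto_nhds]
  intro ε hε
  obtain ⟨δ', d0', hδ⟩ := Metric.continuousAt_iff.1 hp (ε / 2) (half_pos hε)
  obtain ⟨δ, d0, d1, d2⟩ : ∃ δ, 0 < δ ∧ δ ≤ 1 ∧ δ ≤ δ' :=
    ⟨min 1 δ', lt_min one_pos d0', min_le_left _ _, min_le_right _ _⟩
  obtain ⟨k, hk⟩ := ha.exists_dist_lt p.1 (half_pos d0)
  obtain ⟨l, hl⟩ := hb.exists_dist_lt p.2 (half_pos d0)
  have lim := (tendsto_one_div_add_atTop_nhds_zero_nat (𝕜 := ℝ)).const_mul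
    (4 * (1 + |K p|) / δ ^ 2 + 2)
  rw [mul_zero] at lim
  filter_upwards [eventually_ge_atTop k, eventually_ge_atTop l,
    lim.eventually_lt_const (half_pos hε)] with M h1 h2 h3
  obtain ⟨i0, i1, i2⟩ := hu' M k h1
  obtain ⟨j0, j1, j2⟩ := hv' M l h2
  have := ker_near (κ0 M) (s := fun i => u M i + (i - M : ℕ)) (t := fun i => v M i + (i - M : ℕ))
    (A := fun q => K (u M q.1, v M q.2)) (x := p.1) (y := p.2) (η := ε / 2) (B := B M + |K p|)
    (a := K p) d0 d1 i1 j1
    (by rw [Nat.sub_eq_zero_of_le i1, i2, Nat.cast_zero, add_zero, abs_sub_comm]; exact hk.le)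
    (by rw [Nat.sub_eq_zero_of_le j1, j2, Nat.cast_zero, add_zero, abs_sub_comm]; exact hl.le)
    (half_pos hε).le
    (fun i hi j hj => (abs_sub _ _).trans (add_le_add_left ((single_le_sum
      (f := fun j => |K (u M i, v M j)|) (fun _ _ => abs_nonneg _)
      (mem_range.2 (Nat.lt_succ_of_le hj))).trans (single_le_sum
      (f := fun i => ∑ j ∈ range (M + 1), |K (u M i, v M j)|) (fun _ _ => by positivity)
      (mem_range.2 (Nat.lt_succ_of_le hi)))) _))
    fun i hi j hj c1 c2 => by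
      simp only [Nat.sub_eq_zero_of_le hi, Nat.sub_eq_zero_of_le hj, Nat.cast_zero,
        add_zero] at c1 c2
      exact (hδ (x := (u M i, v M j)) (max_lt (c1.trans_le d2) (c2.trans_le d2))).le
  refine this.trans_lt ?_
  have b0 := B0 M
  have k0 := abs_nonneg (K p)
  have : 2 * (B M + |K p|) * ((M + 1) * (2 / (κ M * δ ^ 2))) ≤
      4 * (1 + |K p|) / δ ^ 2 * (1 / (M + 1)) := by
    calc _ ≤ 2 * ((B M + 1) * (1 + |K p|)) * ((M + 1) * (2 / (κ M * δ ^ 2))) := by
          have := κ0 M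
          gcongr
          nlinarith [mul_nonneg b0 k0]
      _ = _ := by simp only [κ]; field_simp; ring
  rw [add_mul, mul_one_div 2] at h3
  linarith

end Pool.Agent.Results.MP_c12a31_an.Approx
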